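import Mathlib.Algebra.Notation.Lemmas
import Mathlib.Algebra.BigOperators.Group.Finset.Powerset
import Mathlib.Algebra.Order.Star.Real
import Mathlib.Analysis.CStarAlgebra.Classes

/-!
Robotic arm with links facing up, down, right and left in a tunnel of width `m`:
states, moves, cubes, the configuration space and its induced length metric.
-/

set_option autoImplicit false

open Finset

namespace Pool.Agent.MP_66e1b3_co

/-- The position of the `k`-th joint of the arm given by the word `w` of steps. -/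
def pos (w : List (ℤ × ℤ)) (k : ℕ) : ℤ × ℤ := (w.take k).sum

/-- `w` is a word of `n` unit steps whose path from the origin stays in the tunnel of width `m`
and visits `n + 1` distinct lattice points. -/
def IsState (m n : ℕ) (w : List (ℤ × ℤ)) : Prop :=
  w.length = n ∧ (∀ s ∈ w, |s.1| + |s.2| = 1) ∧
  (∀ k ≤ n, 0 ≤ (pos w k).1 ∧ 0 ≤ (pos w k).2 ∧ (pos w k).2 ≤ (m : ℤ)) ∧
  (∀ j ≤ n, ∀ k ≤ n, pos w j = pos w k → j = k)

/-- The result of a move: `inl i` exchanges the links `i` and `i + 1` (counted from `0`),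
`inr d` replaces the last link by `d`. -/
def act (a : ℕ ⊕ (ℤ × ℤ)) (w : List (ℤ × ℤ)) : List (ℤ × ℤ) :=
  match a with
  | Sum.inl i => (w.set i (w.getD (i + 1) 0)).set (i + 1) (w.getD i 0)
  | Sum.inr d => w.set (w.length - 1) d

/-- Two steps are perpendicular. -/
def Perp (s t : ℤ × ℤ) : Prop := s.1 * t.1 + s.2 * t.2 = 0

/-- The move `a` is legal at the state `w`. -/
def Legal (m n : ℕ) (w : List (ℤ × ℤ)) (a : ℕ ⊕ (ℤ × ℤ)) : Prop :=
  IsState m n w ∧ IsState m n (act a w) ∧
  match a with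
  | Sum.inl i => i + 1 < n ∧ Perp (w.getD i 0) (w.getD (i + 1) 0)
  | Sum.inr d => Perp (w.getD (n - 1) 0) d

/-- The states reachable from the fully horizontal state by legal moves. -/
def Reach (m n : ℕ) (w : List (ℤ × ℤ)) : Prop :=
  Relation.ReflTransGen (fun u v => ∃ a, Legal m n u a ∧ v = act a u)
    (List.replicate n (1, 0)) w

/-- The links changed by a move. -/
def links (n : ℕ) (a : ℕ ⊕ (ℤ × ℤ)) : Finset ℕ :=
  match a with
  | Sum.inl i => {i, i + 1}
  | Sum.inr _ => {n - 1}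

/-- Perform a list of moves one after the other. -/
def run (l : List (ℕ ⊕ (ℤ × ℤ))) (u : List (ℤ × ℤ)) : List (ℤ × ℤ) :=
  l.foldl (fun w a => act a w) u

/-- The moves in `A` span a cube at the vertex `u`. -/
def IsCube (m n : ℕ) (u : List (ℤ × ℤ)) (A : Finset (ℕ ⊕ (ℤ × ℤ))) : Prop :=
  Reach m n u ∧
  (∀ a ∈ A, ∀ b ∈ A, a ≠ b → Disjoint (links n a) (links n b)) ∧
  ∀ l : List (ℕ ⊕ (ℤ × ℤ)), l.Nodup → (∀ a ∈ l, a ∈ A) →
    (∀ a ∈ A, a ∉ l → Legal m n (run l u) a) ∧ ∀ l', l'.Perm l → run l' u = run l u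

/-- The point of the cube `(u, A)` with coordinates `t`, recorded by its multilinear weights
on the vertices of the cube. -/
noncomputable def pt (u : List (ℤ × ℤ)) (A : Finset (ℕ ⊕ (ℤ × ℤ))) (t : ℕ ⊕ (ℤ × ℤ) → ℝ) :
    List (ℤ × ℤ) → ℝ :=
  fun v => ∑ S ∈ A.powerset,
    if run S.toList u = v then (∏ a ∈ S, t a) * ∏ a ∈ A \ S, (1 - t a) else 0

/-- The underlying set of the cube complex. -/
def Config (m n : ℕ) : Type :=
  {x : List (ℤ × ℤ) → ℝ //
    ∃ u A t, IsCube m n u A ∧ (∀ a, t a ∈ Set.Icc (0 : ℝ) 1) ∧ x = pt u A t}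

/-- `x` and `y` lie in a common cube at Euclidean distance `r`. -/
def Seg {m n : ℕ} (x y : Config m n) (r : ℝ) : Prop :=
  ∃ u A t t', IsCube m n u A ∧ (∀ a, t a ∈ Set.Icc (0 : ℝ) 1) ∧
    (∀ a, t' a ∈ Set.Icc (0 : ℝ) 1) ∧ x.1 = pt u A t ∧ y.1 = pt u A t' ∧
    r = Real.sqrt (∑ a ∈ A, (t a - t' a) ^ 2)

/-- There is a piecewise linear path of length `r` from `x` to `y`. -/
inductive Chain {m n : ℕ} : Config m n → Config m n → ℝ → Prop
  | refl (x : Config m n) : Chain x x 0
  | step {x y z : Config m n} {r s : ℝ} : Chain x y r → Seg y z s → Chain x z (r + s)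

/-- The induced length metric. -/
noncomputable def cdist {m n : ℕ} (x y : Config m n) : ℝ := sInf {r | Chain x y r}

/-! ### Multilinear averages -/

/-- average of `g` over random subsets of `A` -/
noncomputable def ex {α : Type} [DecidableEq α] (A : Finset α) (t : α → ℝ) (g : Finset α → ℝ) : ℝ :=
  ∑ S ∈ A.powerset, g S * ((∏ a ∈ S, t a) * ∏ a ∈ A \ S, (1 - t a))

lemma ex_empty {α : Type} [DecidableEq α] (t : α → ℝ) (g : Finset α → ℝ) : ex ∅ t g = g ∅ := by
  simp [ex]

lemma ex_insert {α : Type} [DecidableEq α] {A : Finset α} {a : α} (ha : a ∉ A) (t : α → ℝ)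
    (g : Finset α → ℝ) :
    ex (insert a A) t g = (1 - t a) * ex A t g + t a * ex A t (fun S => g (insert a S)) := by
  unfold ex
  rw [Finset.sum_powerset_insert ha, Finset.mul_sum, Finset.mul_sum]
  congr 1
  · refine Finset.sum_congr rfl fun S hS => ?_
    have hS' : S ⊆ A := Finset.mem_powerset.1 hS
    have haS : a ∉ S := fun h => ha (hS' h)
    have : insert a A \ S = insert a (A \ S) := Finset.insert_sdiff_of_notMem _ haS
    rw [this, Finset.prod_insert (by simp [ha])]
    ring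
  · refine Finset.sum_congr rfl fun S hS => ?_
    have hS' : S ⊆ A := Finset.mem_powerset.1 hS
    have haS : a ∉ S := fun h => ha (hS' h)
    have : insert a A \ insert a S = A \ S := by
      ext x
      simp only [Finset.mem_sdiff, Finset.mem_insert]
      constructor
      · rintro ⟨h1 | h1, h2⟩
        · exact absurd (Or.inl h1) h2
        · exact ⟨h1, fun h => h2 (Or.inr h)⟩
      · rintro ⟨h1, h2⟩
        refine ⟨Or.inr h1, ?_⟩
        rintro (h | h)
        · exact ha (h ▸ h1)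
        · exact h2 h
    rw [this, Finset.prod_insert haS]
    ring

lemma ex_mem {α : Type} [DecidableEq α] (A : Finset α) {t : α → ℝ}
    (ht : ∀ a, t a ∈ Set.Icc (0 : ℝ) 1) :
    ∀ g : Finset α → ℝ, (∀ S, g S ∈ Set.Icc (0 : ℝ) 1) → ex A t g ∈ Set.Icc (0 : ℝ) 1 := by
  induction A using Finset.induction_on with
  | empty => intro g hg; rw [ex_empty]; exact hg _
  | insert a A ha ih =>
    intro g hg
    rw [ex_insert ha]
    obtain ⟨h1, h2⟩ := ih g hg
    obtain ⟨h3, h4⟩ := ih (fun S => g (insert a S)) (fun S => hg _)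
    obtain ⟨h5, h6⟩ := ht a
    constructor <;> nlinarith

lemma ex_sub_le {α : Type} [DecidableEq α] (A : Finset α) {t t' : α → ℝ}
    (ht : ∀ a, t a ∈ Set.Icc (0 : ℝ) 1) (ht' : ∀ a, t' a ∈ Set.Icc (0 : ℝ) 1) :
    ∀ g : Finset α → ℝ, (∀ S, g S ∈ Set.Icc (0 : ℝ) 1) →
      |ex A t g - ex A t' g| ≤ ∑ a ∈ A, |t a - t' a| := by
  induction A using Finset.induction_on with
  | empty => intro g _; simp [ex_empty]
  | insert a A ha ih =>
    intro g hg
    rw [ex_insert ha, ex_insert ha, Finset.sum_insert ha]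
    have h1 := ih g hg
    have h2 := ih (fun S => g (insert a S)) (fun S => hg _)
    obtain ⟨h3, h4⟩ := ex_mem A ht' g hg
    obtain ⟨h5, h6⟩ := ex_mem A ht' (fun S => g (insert a S)) (fun S => hg _)
    obtain ⟨h7, h8⟩ := ht a
    set p := ex A t g
    set p' := ex A t' g
    set q := ex A t (fun S => g (insert a S))
    set q' := ex A t' (fun S => g (insert a S))
    set D := ∑ a ∈ A, |t a - t' a|
    have e : (1 - t a) * p + t a * q - ((1 - t' a) * p' + t' a * q')
        = (1 - t a) * (p - p') + t a * (q - q') + (t a - t' a) * (q' - p') := by ring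
    rw [e]
    have h9 : |q' - p'| ≤ 1 := abs_le.2 ⟨by linarith, by linarith⟩
    calc _ ≤ |(1 - t a) * (p - p')| + |t a * (q - q')| + |(t a - t' a) * (q' - p')| :=
          abs_add_three _ _ _
      _ = (1 - t a) * |p - p'| + t a * |q - q'| + |t a - t' a| * |q' - p'| := by
          rw [abs_mul, abs_mul, abs_mul, abs_of_nonneg h7, abs_of_nonneg (by linarith : 0 ≤ 1 - t a)]
      _ ≤ (1 - t a) * D + t a * D + |t a - t' a| * 1 := by
          have : 0 ≤ 1 - t a := by linarith
          gcongr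
      _ = _ := by ring

lemma ex_const {α : Type} [DecidableEq α] (A : Finset α) (t : α → ℝ) (c : ℝ) :
    ex A t (fun _ => c) = c := by
  induction A using Finset.induction_on with
  | empty => simp [ex_empty]
  | insert a A ha ih => rw [ex_insert ha, ih]; ring

lemma ex_congr {α : Type} [DecidableEq α] (A : Finset α) (t : α → ℝ) {g g' : Finset α → ℝ}
    (h : ∀ S ⊆ A, g S = g' S) : ex A t g = ex A t g' :=
  Finset.sum_congr rfl fun S hS => by rw [h S (Finset.mem_powerset.1 hS)]

lemma ex_add {α : Type} [DecidableEq α] (A : Finset α) (t : α → ℝ) (g g' : Finset α → ℝ) :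
    ex A t (fun S => g S + g' S) = ex A t g + ex A t g' := by
  simp [ex, add_mul, Finset.sum_add_distrib]

lemma ex_zero {α : Type} [DecidableEq α] (A : Finset α) (g : Finset α → ℝ) :
    ex A (fun _ => 0) g = g ∅ := by
  induction A using Finset.induction_on with
  | empty => simp [ex_empty]
  | insert a A ha ih => rw [ex_insert ha, ih]; ring

lemma pt_eq_ex (u : List (ℤ × ℤ)) (A : Finset (ℕ ⊕ (ℤ × ℤ))) (t : ℕ ⊕ (ℤ × ℤ) → ℝ)
    (v : List (ℤ × ℤ)) :
    pt u A t v = ex A t (fun S => if run S.toList u = v then 1 else 0) := by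
  unfold pt ex
  refine Finset.sum_congr rfl fun S _ => ?_
  by_cases h : run S.toList u = v <;> simp [h]

lemma sum_abs_le {α : Type} (A : Finset α) (f : α → ℝ) :
    ∑ a ∈ A, |f a| ≤ (A.card : ℝ) * Real.sqrt (∑ a ∈ A, f a ^ 2) := by
  have : ∀ a ∈ A, |f a| ≤ Real.sqrt (∑ a ∈ A, f a ^ 2) := fun a ha =>
    Real.abs_le_sqrt (Finset.single_le_sum (f := fun a => f a ^ 2) (fun _ _ => sq_nonneg _) ha)
  simpa using Finset.sum_le_card_nsmul A _ _ this

lemma IsCube.legal {m n : ℕ} {u : List (ℤ × ℤ)} {A : Finset (ℕ ⊕ (ℤ × ℤ))} (h : IsCube m n u A)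
    {a : ℕ ⊕ (ℤ × ℤ)} (ha : a ∈ A) : Legal m n u a :=
  (h.2.2 [] List.nodup_nil (by simp)).1 a ha (by simp)

lemma IsCube.card_le {m n : ℕ} {u : List (ℤ × ℤ)} {A : Finset (ℕ ⊕ (ℤ × ℤ))}
    (h : IsCube m n u A) : A.card ≤ n + 1 := by
  classical
  let f : ℕ ⊕ (ℤ × ℤ) → ℕ := fun a => match a with
    | Sum.inl i => i
    | Sum.inr _ => n - 1
  have hf : ∀ a, f a ∈ links n a := by
    rintro (i | d) <;> simp [f, links]
  have h1 : Set.MapsTo f A (Finset.range (n + 1)) := by
    rintro (i | d) ha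
    · have := (h.legal ha).2.2.1
      simp [f]; omega
    · simp [f]
  have h2 : Set.InjOn f A := by
    intro a ha b hb hab
    by_contra hne
    exact Finset.disjoint_left.1 (h.2.1 a ha b hb hne) (hf a) (hab ▸ hf b)
  simpa using Finset.card_le_card_of_injOn f h1 h2

lemma Seg.nonneg {m n : ℕ} {x y : Config m n} {r : ℝ} (h : Seg x y r) : 0 ≤ r := by
  obtain ⟨u, A, t, t', -, -, -, -, -, rfl⟩ := h
  exact Real.sqrt_nonneg _

lemma Seg.symm {m n : ℕ} {x y : Config m n} {r : ℝ} (h : Seg x y r) : Seg y x r := by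
  obtain ⟨u, A, t, t', h1, h2, h3, h4, h5, rfl⟩ := h
  refine ⟨u, A, t', t, h1, h3, h2, h5, h4, ?_⟩
  congr 1
  exact Finset.sum_congr rfl fun a _ => by ring

lemma Chain.nonneg {m n : ℕ} {x y : Config m n} {r : ℝ} (h : Chain x y r) : 0 ≤ r := by
  induction h with
  | refl => exact le_rfl
  | step _ h ih => exact add_nonneg ih h.nonneg

lemma Chain.trans {m n : ℕ} {x y z : Config m n} {r s : ℝ} (h : Chain x y r) (h' : Chain y z s) :
    Chain x z (r + s) := by
  induction h' with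
  | refl => simpa using h
  | step _ h2 ih => rw [← add_assoc]; exact Chain.step ih h2

lemma Seg.chain {m n : ℕ} {x y : Config m n} {r : ℝ} (h : Seg x y r) : Chain x y r := by
  simpa using Chain.step (Chain.refl x) h

lemma Chain.symm {m n : ℕ} {x y : Config m n} {r : ℝ} (h : Chain x y r) : Chain y x r := by
  induction h with
  | refl => exact Chain.refl _
  | step _ h2 ih => rw [add_comm]; exact h2.symm.chain.trans ih

lemma isCube_empty {m n : ℕ} {u : List (ℤ × ℤ)} (hu : Reach m n u) : IsCube m n u ∅ := by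
  refine ⟨hu, by simp, fun l _ hl => ⟨by simp, fun l' hl' => ?_⟩⟩
  have : l = [] := List.eq_nil_iff_forall_not_mem.2 fun a ha => by simpa using hl a ha
  subst this
  rw [List.perm_nil.1 hl']

lemma isCube_single {m n : ℕ} {u : List (ℤ × ℤ)} (hu : Reach m n u) {a : ℕ ⊕ (ℤ × ℤ)}
    (ha : Legal m n u a) : IsCube m n u {a} := by
  refine ⟨hu, by simp, fun l hn hl => ?_⟩
  have : l = [] ∨ l = [a] := by
    match l, hn, hl with
    | [], _, _ => exact Or.inl rfl
    | [b], _, hl => right; simpa using hl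
    | b :: c :: l, hn, hl =>
      exfalso
      have h1 : b = a := by simpa using hl b (by simp)
      have h2 : c = a := by simpa using hl c (by simp)
      simp [h1, h2] at hn
  rcases this with rfl | rfl
  · refine ⟨by simpa [run] using ha, fun l' hl' => by rw [List.perm_nil.1 hl']⟩
  · refine ⟨by simp, fun l' hl' => by rw [List.perm_singleton.1 hl']⟩

/-- the vertex `u` as a point of the complex -/
noncomputable def vert {m n : ℕ} (u : List (ℤ × ℤ)) (hu : Reach m n u) : Config m n :=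
  ⟨pt u ∅ (fun _ => 0), u, ∅, fun _ => 0, isCube_empty hu, fun _ => by simp, rfl⟩

lemma pt_zero (u : List (ℤ × ℤ)) (A : Finset (ℕ ⊕ (ℤ × ℤ))) :
    pt u A (fun _ => 0) = pt u ∅ (fun _ => 0) := by
  funext v
  rw [pt_eq_ex, pt_eq_ex, ex_zero, ex_zero]

lemma pt_single_one (u : List (ℤ × ℤ)) (a : ℕ ⊕ (ℤ × ℤ)) :
    pt u {a} (fun _ => 1) = pt (act a u) ∅ (fun _ => 0) := by
  funext v
  rw [pt_eq_ex, pt_eq_ex, ex_empty, ← Finset.insert_empty, ex_insert (by simp), ex_empty, ex_empty]
  simp [run]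

lemma chain_vert {m n : ℕ} (u : List (ℤ × ℤ)) (hu : Reach m n u) :
    ∃ r, Chain (vert (m := m) (n := n) _ Relation.ReflTransGen.refl) (vert u hu) r := by
  induction hu with
  | refl => exact ⟨0, Chain.refl _⟩
  | tail hb hbc ih =>
    obtain ⟨a, ha, rfl⟩ := hbc
    obtain ⟨r, hr⟩ := ih
    refine ⟨_, Chain.step hr ⟨_, {a}, fun _ => 0, fun _ => 1, isCube_single hb ha, by simp,
      by simp, (pt_zero _ _).symm, (pt_single_one _ _).symm, rfl⟩⟩

lemma chain_exists {m n : ℕ} (x y : Config m n) : ∃ r, Chain x y r := by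
  have key : ∀ x : Config m n,
      ∃ r, Chain (vert (m := m) (n := n) _ Relation.ReflTransGen.refl) x r := by
    rintro ⟨x, u, A, t, hc, ht, rfl⟩
    obtain ⟨r, hr⟩ := chain_vert u hc.1
    exact ⟨_, Chain.step hr ⟨u, A, fun _ => 0, t, hc, by simp, ht, (pt_zero _ _).symm, rfl, rfl⟩⟩
  obtain ⟨r, hr⟩ := key x
  obtain ⟨s, hs⟩ := key y
  exact ⟨_, hr.symm.trans hs⟩

lemma chain_bdd {m n : ℕ} (x y : Config m n) : BddBelow {r | Chain x y r} :=
  ⟨0, fun _ h => h.nonneg⟩

lemma cdist_le {m n : ℕ} {x y : Config m n} {r : ℝ} (h : Chain x y r) : cdist x y ≤ r :=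
  csInf_le (chain_bdd x y) h

lemma le_cdist {m n : ℕ} {x y : Config m n} {c : ℝ} (h : ∀ r, Chain x y r → c ≤ r) :
    c ≤ cdist x y :=
  le_csInf (chain_exists x y) h

theorem cdist_self {m n : ℕ} (x : Config m n) : cdist x x = 0 :=
  le_antisymm (cdist_le (Chain.refl x)) (le_cdist fun _ h => h.nonneg)

theorem cdist_comm {m n : ℕ} (x y : Config m n) : cdist x y = cdist y x :=
  le_antisymm (le_cdist fun _ h => cdist_le h.symm) (le_cdist fun _ h => cdist_le h.symm)

theorem cdist_triangle {m n : ℕ} (x y z : Config m n) : cdist x z ≤ cdist x y + cdist y z := by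
  have h1 : ∀ r, Chain x y r → cdist x z - r ≤ cdist y z := fun r hr =>
    le_cdist fun s hs => by linarith [cdist_le (hr.trans hs)]
  have h2 : cdist x z - cdist y z ≤ cdist x y := le_cdist fun r hr => by linarith [h1 r hr]
  linarith

/-- a function that is Lipschitz on cubes is Lipschitz -/
lemma lip_of_seg {m n : ℕ} {Y : Type} [PseudoMetricSpace Y] (F : Config m n → Y) {C : ℝ}
    (hC : 0 < C) (h : ∀ x y r, Seg x y r → dist (F x) (F y) ≤ C * r) (x y : Config m n) :
    dist (F x) (F y) ≤ C * cdist x y := by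
  have h1 : ∀ r, Chain x y r → dist (F x) (F y) ≤ C * r := by
    intro r hr
    induction hr with
    | refl => simp
    | step _ h2 ih =>
      have := h _ _ _ h2
      calc _ ≤ _ := dist_triangle _ (F _) _
        _ ≤ _ := add_le_add ih this
        _ = _ := by ring
  have : dist (F x) (F y) / C ≤ cdist x y :=
    le_cdist fun r hr => by rw [div_le_iff₀ hC, mul_comm]; exact h1 r hr
  rwa [div_le_iff₀ hC, mul_comm] at this

lemma ex_seg_le {m n : ℕ} {u : List (ℤ × ℤ)} {A : Finset (ℕ ⊕ (ℤ × ℤ))} (h : IsCube m n u A)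
    {t t' : ℕ ⊕ (ℤ × ℤ) → ℝ}
    (ht : ∀ a, t a ∈ Set.Icc (0 : ℝ) 1) (ht' : ∀ a, t' a ∈ Set.Icc (0 : ℝ) 1)
    (g : Finset (ℕ ⊕ (ℤ × ℤ)) → ℝ) (hg : ∀ S, g S ∈ Set.Icc (0 : ℝ) 1) :
    |ex A t g - ex A t' g| ≤ ((n : ℝ) + 1) * Real.sqrt (∑ a ∈ A, (t a - t' a) ^ 2) := by
  refine (ex_sub_le A ht ht' g hg).trans ((sum_abs_le A fun a => t a - t' a).trans ?_)
  have : (A.card : ℝ) ≤ n + 1 := by exact_mod_cast h.card_le
  gcongr

theorem cdist_eq_zero {m n : ℕ} {x y : Config m n} (h : cdist x y = 0) : x = y := by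
  refine Subtype.ext (funext fun v => ?_)
  have := lip_of_seg (fun z : Config m n => z.1 v) (C := (n : ℝ) + 1) (by positivity) ?_ x y
  · rw [h, mul_zero] at this
    exact dist_le_zero.1 this
  · rintro x y r ⟨u, A, t, t', h1, h2, h3, h4, h5, rfl⟩
    simp only [h4, h5, pt_eq_ex, Real.dist_eq]
    exact ex_seg_le h1 h2 h3 _ fun S => by split_ifs <;> simp

/-- The configuration space with its induced length metric. -/
noncomputable instance armMetric (m n : ℕ) : MetricSpace (Config m n) where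
  dist := cdist
  dist_self := cdist_self
  dist_comm := cdist_comm
  dist_triangle := cdist_triangle
  eq_of_dist_eq_zero := cdist_eq_zero

/-- `γ` restricted to `[0, 1]` is a constant speed geodesic from `x` to `y`. -/
def IsGeodesic {X : Type} [MetricSpace X] (γ : ℝ → X) (x y : X) : Prop :=
  γ 0 = x ∧ γ 1 = y ∧
    ∀ s ∈ Set.Icc (0 : ℝ) 1, ∀ t ∈ Set.Icc (0 : ℝ) 1, dist (γ s) (γ t) = |s - t| * dist x y

/-- CAT(0): geodesic, and geodesic triangles are thinner than their comparison triangles in the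
Euclidean plane `ℂ`. -/
def IsCAT0 (X : Type) [MetricSpace X] : Prop :=
  (∀ x y : X, ∃ γ, IsGeodesic γ x y) ∧
  ∀ (p q r : X) (γ δ : ℝ → X), IsGeodesic γ p q → IsGeodesic δ p r →
    ∀ p' q' r' : ℂ,
      dist p' q' = dist p q → dist p' r' = dist p r → dist q' r' = dist q r →
      ∀ s ∈ Set.Icc (0 : ℝ) 1, ∀ t ∈ Set.Icc (0 : ℝ) 1,
        dist (γ s) (δ t) ≤ dist ((1 - s) • p' + s • q') ((1 - t) • p' + t • r')

end Pool.Agent.MP_66e1b3_co
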