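import Mathlib.Topology.Instances.ZMultiples
import Mathlib.Analysis.InnerProductSpace.Basic
import Mathlib.Topology.Covering.AddCircle
import Mathlib.Topology.Homotopy.Lifting
import Pool.Agent.MP_66e1b3_co.Defs

/-!
In a CAT(0) space every continuous map to the circle lifts to the real line.
-/

set_option autoImplicit false

open Set unitInterval

namespace Pool.Agent.MP_66e1b3_co

lemma exists_comparison {a b c : ℝ} (ha : 0 ≤ a) (hb : 0 ≤ b) (hc : 0 ≤ c)
    (h1 : c ≤ a + b) (h2 : a ≤ b + c) (h3 : b ≤ a + c) :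
    ∃ p q r : ℂ, dist p q = a ∧ dist p r = b ∧ dist q r = c := by
  have hd : ∀ x y x' y' : ℝ, dist (⟨x, y⟩ : ℂ) ⟨x', y'⟩
      = Real.sqrt ((x - x') ^ 2 + (y - y') ^ 2) := by
    intro x y x' y'
    rw [Complex.dist_eq_re_im]
  rcases ha.eq_or_lt with rfl | ha'
  · refine ⟨⟨0, 0⟩, ⟨0, 0⟩, ⟨b, 0⟩, by simp, ?_, ?_⟩
    · rw [hd]; simp [Real.sqrt_sq hb]
    · rw [hd]
      have : b = c := by linarith
      simp [Real.sqrt_sq hc, this]
  · set x := (a ^ 2 + b ^ 2 - c ^ 2) / (2 * a) with hx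
    have hx2 : x * (2 * a) = a ^ 2 + b ^ 2 - c ^ 2 := by rw [hx]; field_simp
    have hxb : x ^ 2 ≤ b ^ 2 := by
      apply sq_le_sq'
      · rw [hx, le_div_iff₀ (by positivity)]; nlinarith
      · rw [hx, div_le_iff₀ (by positivity)]; nlinarith
    have hy : Real.sqrt (b ^ 2 - x ^ 2) ^ 2 = b ^ 2 - x ^ 2 := Real.sq_sqrt (by linarith)
    refine ⟨⟨0, 0⟩, ⟨a, 0⟩, ⟨x, Real.sqrt (b ^ 2 - x ^ 2)⟩, ?_, ?_, ?_⟩
    · rw [hd]; simp [Real.sqrt_sq ha]
    · rw [hd]
      have : (0 - x) ^ 2 + (0 - Real.sqrt (b ^ 2 - x ^ 2)) ^ 2 = b ^ 2 := by nlinarith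
      rw [this, Real.sqrt_sq hb]
    · rw [hd]
      have : (a - x) ^ 2 + (0 - Real.sqrt (b ^ 2 - x ^ 2)) ^ 2 = c ^ 2 := by nlinarith
      rw [this, Real.sqrt_sq hc]

lemma IsCAT0.dist_le {X : Type} [MetricSpace X] (h : IsCAT0 X) {p q r : X} {γ δ : ℝ → X}
    (hγ : IsGeodesic γ p q) (hδ : IsGeodesic δ p r) {s : ℝ} (hs : s ∈ Icc (0 : ℝ) 1) :
    dist (γ s) (δ s) ≤ dist q r := by
  obtain ⟨p', q', r', h1, h2, h3⟩ := exists_comparison (a := dist p q) (b := dist p r)
    (c := dist q r) dist_nonneg dist_nonneg dist_nonneg (dist_triangle_left _ _ _)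
    (dist_triangle_right _ _ _ |>.trans (le_of_eq rfl)) (dist_triangle _ _ _)
  refine (h.2 p q r γ δ hγ hδ p' q' r' h1 h2 h3 s hs s hs).trans ?_
  rw [← h3, dist_eq_norm, dist_eq_norm]
  have : (1 - s) • p' + s • q' - ((1 - s) • p' + s • r') = s • (q' - r') := by
    module
  rw [this, norm_smul, Real.norm_of_nonneg hs.1]
  exact mul_le_of_le_one_left (norm_nonneg _) hs.2

lemma IsCAT0.exists_lift {X : Type} [MetricSpace X] (h : IsCAT0 X) (o : X)
    (Φ : X → AddCircle (1 : ℝ)) (hΦ : Continuous Φ) :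
    ∃ F : X → ℝ, Continuous F ∧ ∀ x, (F x : AddCircle (1 : ℝ)) = Φ x := by
  choose γ hγ using h.1 o
  have hc : Continuous fun p : I × X => γ p.2 p.1 := by
    rw [continuous_iff_continuousAt]
    rintro ⟨t, x⟩
    rw [ContinuousAt, tendsto_iff_dist_tendsto_zero]
    have hb : ∀ p : I × X, dist (γ p.2 p.1) (γ x t)
        ≤ dist p.2 x + |(p.1 : ℝ) - t| * dist o x := fun p => by
      have h1 := h.dist_le (hγ p.2) (hγ x) p.1.2
      have h2 := (hγ x).2.2 p.1 p.1.2 t t.2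
      linarith [dist_triangle (γ p.2 p.1) (γ x p.1) (γ x t)]
    refine squeeze_zero (fun _ => dist_nonneg) hb ?_
    have : Continuous fun p : I × X => dist p.2 x + |(p.1 : ℝ) - t| * dist o x := by fun_prop
    simpa using this.tendsto (t, x)
  obtain ⟨e, he⟩ : ∃ e : ℝ, (e : AddCircle (1 : ℝ)) = Φ o := QuotientAddGroup.mk_surjective _
  let H : C(I × X, AddCircle (1 : ℝ)) := ⟨fun p => Φ (γ p.2 p.1), hΦ.comp hc⟩
  have cov := AddCircle.isCoveringMap_coe (1 : ℝ)
  have H0 : ∀ x, H (0, x) = ((ContinuousMap.const X e x : ℝ) : AddCircle (1 : ℝ)) := by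
    intro x
    simp [H, (hγ x).1, he]
  refine ⟨fun x => cov.liftHomotopy H (ContinuousMap.const X e) H0 (1, x), by fun_prop, fun x => ?_⟩
  have := congrFun (cov.liftHomotopy_lifts H (ContinuousMap.const X e) H0) (1, x)
  simpa [H, (hγ x).2.1] using this

/-- two continuous real functions on the unit interval that agree modulo one have the same
increment -/
lemma incr_eq {f g : ℝ → ℝ} (hf : ContinuousOn f (Icc 0 1)) (hg : ContinuousOn g (Icc 0 1))
    (h : ∀ s ∈ Icc (0 : ℝ) 1, (f s : AddCircle (1 : ℝ)) = (g s : AddCircle (1 : ℝ))) :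
    f 1 - f 0 = g 1 - g 0 := by
  have cov := AddCircle.isCoveringMap_coe (1 : ℝ)
  have h1 : Continuous fun s : I => f s - g s :=
    (hf.sub hg).comp_continuous continuous_subtype_val fun s => s.2
  have := cov.const_of_comp h1 (fun a b => by
    simp only [AddCircle.coe_sub, h a a.2, h b b.2, sub_self]) 0 1
  simp only [Icc.coe_zero, Icc.coe_one] at this
  linarith

end Pool.Agent.MP_66e1b3_co
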