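import Mathlib.Tactic.IntervalCases
import Mathlib.Data.Int.Star
import Mathlib.Algebra.Order.Ring.Star
import Mathlib.Analysis.Normed.Group.Quotient
import Pool.Agent.MP_66e1b3_co.Lift

/-!
A Lipschitz map from the configuration space with `m = 8`, `n = 15` to the circle.
-/

set_option autoImplicit false

open Finset

namespace Pool.Agent.MP_66e1b3_co

/-- the arm starts with up, right, down and its joint number 14 is at `(2, 2)` -/
def Q (w : List (ℤ × ℤ)) : Prop :=
  w.getD 0 0 = (0, 1) ∧ w.getD 1 0 = (1, 0) ∧ w.getD 2 0 = (0, -1) ∧ pos w 14 = (2, 2)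

/-- `Q` holds and the last link is `e` -/
def W (e : ℤ × ℤ) (w : List (ℤ × ℤ)) : Prop := Q w ∧ w.getD 14 0 = e

instance (w : List (ℤ × ℤ)) : Decidable (Q w) := by unfold Q; infer_instance
instance (e : ℤ × ℤ) (w : List (ℤ × ℤ)) : Decidable (W e w) := by unfold W; infer_instance
instance (m n : ℕ) (w : List (ℤ × ℤ)) : Decidable (IsState m n w) := by
  unfold IsState; infer_instance
instance (s t : ℤ × ℤ) : Decidable (Perp s t) := by unfold Perp; infer_instance
instance (m n : ℕ) (w : List (ℤ × ℤ)) (a : ℕ ⊕ (ℤ × ℤ)) : Decidable (Legal m n w a) := by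
  unfold Legal; cases a <;> infer_instance

lemma list15 {w : List (ℤ × ℤ)} (h : w.length = 15) :
    ∃ s0 s1 s2 s3 s4 s5 s6 s7 s8 s9 s10 s11 s12 s13 s14,
      w = [s0, s1, s2, s3, s4, s5, s6, s7, s8, s9, s10, s11, s12, s13, s14] := by
  match w, h with
  | [s0, s1, s2, s3, s4, s5, s6, s7, s8, s9, s10, s11, s12, s13, s14], _ =>
    exact ⟨_, _, _, _, _, _, _, _, _, _, _, _, _, _, _, rfl⟩

lemma pos_sw14 {w : List (ℤ × ℤ)} (h : w.length = 15) {i : ℕ} (hi : i + 1 < 14) :
    pos (act (Sum.inl i) w) 14 = pos w 14 := by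
  obtain ⟨s0, s1, s2, s3, s4, s5, s6, s7, s8, s9, s10, s11, s12, s13, s14, rfl⟩ := list15 h
  have : i < 13 := by omega
  interval_cases i <;> simp [act, pos, add_left_comm, add_comm]

lemma pos_sw15 {w : List (ℤ × ℤ)} (h : w.length = 15) {i : ℕ} (hi : i + 1 < 15) :
    pos (act (Sum.inl i) w) 15 = pos w 15 := by
  obtain ⟨s0, s1, s2, s3, s4, s5, s6, s7, s8, s9, s10, s11, s12, s13, s14, rfl⟩ := list15 h
  have : i < 14 := by omega
  interval_cases i <;> simp [act, pos, add_left_comm, add_comm]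

lemma pos15 {w : List (ℤ × ℤ)} (h : w.length = 15) : pos w 15 = pos w 14 + w.getD 14 0 := by
  obtain ⟨s0, s1, s2, s3, s4, s5, s6, s7, s8, s9, s10, s11, s12, s13, s14, rfl⟩ := list15 h
  simp [pos, add_assoc]

lemma sw_sw {w : List (ℤ × ℤ)} (h : w.length = 15) {i : ℕ} (hi : i + 1 < 14) :
    act (Sum.inl i) (act (Sum.inl i) w) = w := by
  obtain ⟨s0, s1, s2, s3, s4, s5, s6, s7, s8, s9, s10, s11, s12, s13, s14, rfl⟩ := list15 h
  have : i < 13 := by omega
  interval_cases i <;> simp [act]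

lemma sw_perp {w : List (ℤ × ℤ)} (h : w.length = 15) {i : ℕ} (hi : i + 1 < 14)
    (hp : Perp (w.getD i 0) (w.getD (i + 1) 0)) :
    Perp ((act (Sum.inl i) w).getD i 0) ((act (Sum.inl i) w).getD (i + 1) 0) := by
  obtain ⟨s0, s1, s2, s3, s4, s5, s6, s7, s8, s9, s10, s11, s12, s13, s14, rfl⟩ := list15 h
  have : i < 13 := by omega
  interval_cases i <;> simp [act, Perp] at hp ⊢ <;> linarith

lemma sw_last {w : List (ℤ × ℤ)} (h : w.length = 15) {i : ℕ} (hi : i + 1 < 14) :
    (act (Sum.inl i) w).getD 14 0 = w.getD 14 0 := by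
  obtain ⟨s0, s1, s2, s3, s4, s5, s6, s7, s8, s9, s10, s11, s12, s13, s14, rfl⟩ := list15 h
  have : i < 13 := by omega
  interval_cases i <;> simp [act]

lemma sw_flip {w : List (ℤ × ℤ)} (h : w.length = 15) {i : ℕ} (hi : i + 1 < 14) (d : ℤ × ℤ) :
    act (Sum.inl i) (act (Sum.inr d) w) = act (Sum.inr d) (act (Sum.inl i) w) := by
  obtain ⟨s0, s1, s2, s3, s4, s5, s6, s7, s8, s9, s10, s11, s12, s13, s14, rfl⟩ := list15 h
  have : i < 13 := by omega
  interval_cases i <;> simp [act]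

lemma flip_perp {w : List (ℤ × ℤ)} (h : w.length = 15) {i : ℕ} (hi : i + 1 < 14) (d : ℤ × ℤ)
    (hp : Perp (w.getD i 0) (w.getD (i + 1) 0)) :
    Perp ((act (Sum.inr d) w).getD i 0) ((act (Sum.inr d) w).getD (i + 1) 0) := by
  obtain ⟨s0, s1, s2, s3, s4, s5, s6, s7, s8, s9, s10, s11, s12, s13, s14, rfl⟩ := list15 h
  have : i < 13 := by omega
  interval_cases i <;> simpa [act] using hp

lemma flip_last {w : List (ℤ × ℤ)} (h : w.length = 15) (d : ℤ × ℤ) :
    (act (Sum.inr d) w).getD 14 0 = d := by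
  obtain ⟨s0, s1, s2, s3, s4, s5, s6, s7, s8, s9, s10, s11, s12, s13, s14, rfl⟩ := list15 h
  simp [act]

lemma flip_self {w : List (ℤ × ℤ)} (h : w.length = 15) :
    act (Sum.inr (w.getD 14 0)) w = w := by
  obtain ⟨s0, s1, s2, s3, s4, s5, s6, s7, s8, s9, s10, s11, s12, s13, s14, rfl⟩ := list15 h
  simp [act]

lemma Q_flip {w : List (ℤ × ℤ)} (h : w.length = 15) (d : ℤ × ℤ) :
    Q (act (Sum.inr d) w) ↔ Q w := by
  obtain ⟨s0, s1, s2, s3, s4, s5, s6, s7, s8, s9, s10, s11, s12, s13, s14, rfl⟩ := list15 h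
  simp [act, Q, pos]

lemma Q_sw_aux {w : List (ℤ × ℤ)} {i : ℕ} (hi : i + 1 < 14) (h : IsState 8 15 w)
    (h' : IsState 8 15 (act (Sum.inl i) w)) (hp : Perp (w.getD i 0) (w.getD (i + 1) 0))
    (hl : w.getD 14 0 = (0, -1)) (hQ : Q w) : Q (act (Sum.inl i) w) := by
  have e14 := pos_sw14 h.1 hi
  have e15 := pos15 h'.1
  rw [sw_last h.1 hi, e14, hQ.2.2.2, hl] at e15
  refine (fun (H : (act (Sum.inl i) w).getD 0 0 = (0, 1) ∧ (act (Sum.inl i) w).getD 1 0 = (1, 0)
    ∧ (act (Sum.inl i) w).getD 2 0 = (0, -1)) => ⟨H.1, H.2.1, H.2.2, e14.trans hQ.2.2.2⟩) ?_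
  obtain ⟨s0, s1, s2, s3, s4, s5, s6, s7, s8, s9, s10, s11, s12, s13, s14, rfl⟩ := list15 h.1
  obtain ⟨h0, h1, h2, -⟩ := hQ
  simp only [List.getD_cons_zero, List.getD_cons_succ] at h0 h1 h2
  subst h0 h1 h2
  have : i < 13 := by omega
  have hn := h.2.2.2
  have hn' := h'.2.2.2
  have hs := h.2.1 s3 (by simp)
  interval_cases i
  · exact absurd (hn' 1 (by norm_num) 3 (by norm_num) (by simp [act, pos])) (by norm_num)
  · exact absurd (hn' 0 (by norm_num) 2 (by norm_num) (by simp [act, pos]; rfl)) (by norm_num)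
  · exfalso
    obtain ⟨x, y⟩ := s3
    have hy : y = 0 := by simpa [Perp] using hp
    subst hy
    have hx : x = 1 ∨ x = -1 := by
      simp only [abs_zero, add_zero] at hs
      exact (abs_eq zero_le_one).1 hs
    rcases hx with rfl | rfl
    · exact absurd (hn' 3 (by norm_num) 15 (by norm_num) (by rw [e15]; simp [act, pos]))
        (by norm_num)
    · exact absurd (hn 0 (by norm_num) 4 (by norm_num) (by simp [pos]; rfl)) (by norm_num)
  all_goals simp [act]

lemma Q_sw {w : List (ℤ × ℤ)} {i : ℕ} (hi : i + 1 < 14) (h : IsState 8 15 w)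
    (h' : IsState 8 15 (act (Sum.inl i) w)) (hp : Perp (w.getD i 0) (w.getD (i + 1) 0))
    (hl : w.getD 14 0 = (0, -1)) : Q (act (Sum.inl i) w) ↔ Q w := by
  refine ⟨fun hQ => ?_, Q_sw_aux hi h h' hp hl⟩
  have := Q_sw_aux hi h' (by rwa [sw_sw h.1 hi]) (sw_perp h.1 hi hp)
    (by rwa [sw_last h.1 hi]) hQ
  rwa [sw_sw h.1 hi] at this

lemma IsCube.vtx_insert {m n : ℕ} {u : List (ℤ × ℤ)} {A : Finset (ℕ ⊕ (ℤ × ℤ))}
    (h : IsCube m n u A) {S : Finset (ℕ ⊕ (ℤ × ℤ))} (hS : S ⊆ A) {a : ℕ ⊕ (ℤ × ℤ)} (ha : a ∈ A)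
    (haS : a ∉ S) :
    Legal m n (run S.toList u) a ∧ run (insert a S).toList u = act a (run S.toList u) := by
  refine ⟨(h.2.2 S.toList S.nodup_toList fun b hb => hS (Finset.mem_toList.1 hb)).1 a ha
    (by simpa using haS), ?_⟩
  have hp : (S.toList ++ [a]).Perm (insert a S).toList :=
    (List.perm_append_singleton _ _).trans (Finset.toList_insert haS).symm
  have := (h.2.2 (insert a S).toList (Finset.nodup_toList _) fun b hb =>
    Finset.insert_subset ha hS (Finset.mem_toList.1 hb)).2 _ hp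
  rw [← this]
  simp [run]

lemma cube_key {u : List (ℤ × ℤ)} {A : Finset (ℕ ⊕ (ℤ × ℤ))} (h : IsCube 8 15 u A)
    {S₁ S₂ : Finset (ℕ ⊕ (ℤ × ℤ))} (h₁ : S₁ ⊆ A) (h₂ : S₂ ⊆ A)
    (w₁ : W (-1, 0) (run S₁.toList u)) (w₂ : W (0, -1) (run S₂.toList u)) :
    ∀ S ⊆ A, W (-1, 0) (run S.toList u) ∨ W (0, -1) (run S.toList u) := by
  have hA : A.Nonempty := by
    rw [Finset.nonempty_iff_ne_empty]
    rintro rfl
    rw [Finset.subset_empty] at h₁ h₂
    subst h₁ h₂
    have := w₁.2.symm.trans w₂.2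
    simp at this
  obtain ⟨a', ha'⟩ := hA
  have hu : IsState 8 15 u := (h.legal ha').1
  have hst : ∀ S ⊆ A, IsState 8 15 (run S.toList u) := by
    intro S hS
    induction S using Finset.induction_on with
    | empty => simpa [run] using hu
    | insert a S haS _ =>
      have := h.vtx_insert (fun b hb => hS (Finset.mem_insert_of_mem hb))
        (hS (Finset.mem_insert_self _ _)) haS
      rw [this.2]; exact this.1.2.1
  obtain ⟨d, hd⟩ : ∃ d, Sum.inr d ∈ A := by
    by_contra hcon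
    have hall : ∀ S ⊆ A, pos (run S.toList u) 15 = pos u 15 := by
      intro S hS
      induction S using Finset.induction_on with
      | empty => simp [run]
      | insert a S haS ih =>
        have hS' : S ⊆ A := fun b hb => hS (Finset.mem_insert_of_mem hb)
        have ha := hS (Finset.mem_insert_self _ _)
        have := h.vtx_insert hS' ha haS
        rw [this.2]
        rcases a with i | d
        · rw [pos_sw15 (hst S hS').1 this.1.2.2.1, ih hS']
        · exact absurd ⟨d, ha⟩ hcon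
    have e1 := pos15 (hst S₁ h₁).1
    have e2 := pos15 (hst S₂ h₂).1
    rw [hall S₁ h₁, w₁.1.2.2.2, w₁.2] at e1
    rw [hall S₂ h₂, w₂.1.2.2.2, w₂.2, e1] at e2
    simp at e2
  have hoth : ∀ a ∈ A, a ≠ Sum.inr d → ∃ i, a = Sum.inl i ∧ i + 1 < 14 := by
    intro a ha hne
    have hdis := h.2.1 a ha _ hd hne
    rcases a with i | d'
    · have := (h.legal ha).2.2.1
      simp [links] at hdis
      exact ⟨i, rfl, by omega⟩
    · simp [links] at hdis
  have hlast : ∀ S ⊆ A, Sum.inr d ∉ S → (run S.toList u).getD 14 0 = u.getD 14 0 := by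
    intro S hS hdS
    induction S using Finset.induction_on with
    | empty => simp [run]
    | insert a S haS ih =>
      have hS' : S ⊆ A := fun b hb => hS (Finset.mem_insert_of_mem hb)
      have ha := hS (Finset.mem_insert_self _ _)
      obtain ⟨i, rfl, hi⟩ := hoth a ha (fun e => hdS (e ▸ Finset.mem_insert_self _ _))
      rw [(h.vtx_insert hS' ha haS).2, sw_last (hst S hS').1 hi,
        ih hS' fun e => hdS (Finset.mem_insert_of_mem e)]
  have hsplit : ∀ S ⊆ A, Sum.inr d ∈ S →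
      run S.toList u = act (Sum.inr d) (run (S.erase (Sum.inr d)).toList u) := by
    intro S hS hdS
    conv_lhs => rw [← Finset.insert_erase hdS]
    exact (h.vtx_insert ((Finset.erase_subset _ _).trans hS) hd (Finset.notMem_erase _ _)).2
  have hlast' : ∀ S ⊆ A, Sum.inr d ∈ S → (run S.toList u).getD 14 0 = d := by
    intro S hS hdS
    rw [hsplit S hS hdS, flip_last (hst _ ((Finset.erase_subset _ _).trans hS)).1]
  have hcase : (u.getD 14 0 = (-1, 0) ∧ d = (0, -1)) ∨ (u.getD 14 0 = (0, -1) ∧ d = (-1, 0)) := by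
    have e1 := w₁.2
    have e2 := w₂.2
    by_cases c1 : Sum.inr d ∈ S₁ <;> by_cases c2 : Sum.inr d ∈ S₂
    · rw [hlast' _ h₁ c1] at e1; rw [hlast' _ h₂ c2, e1] at e2; simp at e2
    · rw [hlast' _ h₁ c1] at e1; rw [hlast _ h₂ c2] at e2; exact Or.inr ⟨e2, e1⟩
    · rw [hlast _ h₁ c1] at e1; rw [hlast' _ h₂ c2] at e2; exact Or.inl ⟨e1, e2⟩
    · rw [hlast _ h₁ c1] at e1; rw [hlast _ h₂ c2, e1] at e2; simp at e2
  have hD : ∀ S ⊆ A, Sum.inr d ∉ S →
      IsState 8 15 (act (Sum.inr (0, -1)) (run S.toList u)) := by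
    intro S hS hdS
    rcases hcase with ⟨_, rfl⟩ | ⟨e, _⟩
    · exact (h.vtx_insert hS hd hdS).1.2.1
    · rw [← e, ← hlast S hS hdS, flip_self (hst S hS).1]; exact hst S hS
  have hQ : ∀ S ⊆ A, Sum.inr d ∉ S → (Q (run S.toList u) ↔ Q u) := by
    intro S hS hdS
    induction S using Finset.induction_on with
    | empty => simp [run]
    | insert a S haS ih =>
      have hS' : S ⊆ A := fun b hb => hS (Finset.mem_insert_of_mem hb)
      have ha := hS (Finset.mem_insert_self _ _)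
      have hdS' : Sum.inr d ∉ S := fun e => hdS (Finset.mem_insert_of_mem e)
      obtain ⟨i, rfl, hi⟩ := hoth a ha (fun e => hdS (e ▸ Finset.mem_insert_self _ _))
      have hv := h.vtx_insert hS' ha haS
      have hl := (hst S hS').1
      have hD2 := hD _ hS hdS
      rw [hv.2, ← sw_flip hl hi] at hD2
      have := Q_sw hi (hD S hS' hdS') hD2 (flip_perp hl hi _ hv.1.2.2.2) (flip_last hl _)
      rw [sw_flip hl hi, Q_flip hv.1.2.1.1, Q_flip hl] at this
      rw [hv.2, this, ih hS' hdS']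
  have hQ' : ∀ S ⊆ A, (Q (run S.toList u) ↔ Q u) := by
    intro S hS
    by_cases c : Sum.inr d ∈ S
    · have hS' := (Finset.erase_subset (Sum.inr d) S).trans hS
      rw [hsplit S hS c, Q_flip (hst _ hS').1, hQ _ hS' (Finset.notMem_erase _ _)]
    · exact hQ S hS c
  intro S hS
  have hQS : Q (run S.toList u) := (hQ' S hS).2 ((hQ' S₁ h₁).1 w₁.1)
  by_cases c : Sum.inr d ∈ S
  · rcases hcase with ⟨_, e⟩ | ⟨_, e⟩
    · exact Or.inr ⟨hQS, (hlast' S hS c).trans e⟩
    · exact Or.inl ⟨hQS, (hlast' S hS c).trans e⟩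
  · rcases hcase with ⟨e, _⟩ | ⟨e, _⟩
    · exact Or.inl ⟨hQS, (hlast S hS c).trans e⟩
    · exact Or.inr ⟨hQS, (hlast S hS c).trans e⟩

/-- total weight of the vertices in `W e` -/
noncomputable def mass (e : ℤ × ℤ) (x : List (ℤ × ℤ) → ℝ) : ℝ :=
  ∑ᶠ v, if W e v then x v else 0

lemma mass_pt (e : ℤ × ℤ) (u : List (ℤ × ℤ)) (A : Finset (ℕ ⊕ (ℤ × ℤ))) (t : ℕ ⊕ (ℤ × ℤ) → ℝ) :
    mass e (pt u A t) = ex A t (fun S => if W e (run S.toList u) then 1 else 0) := by
  unfold mass
  rw [finsum_eq_sum_of_support_subset (s := A.powerset.image fun S => run S.toList u)]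
  · have : ∀ v, (if W e v then pt u A t v else 0) = ∑ S ∈ A.powerset,
        if run S.toList u = v then (if W e (run S.toList u) then 1 else 0) *
          ((∏ a ∈ S, t a) * ∏ a ∈ A \ S, (1 - t a)) else 0 := by
      intro v
      by_cases hv : W e v
      · rw [if_pos hv, pt]
        refine Finset.sum_congr rfl fun S _ => ?_
        by_cases hS : run S.toList u = v <;> simp [hS, hv]
      · rw [if_neg hv]
        refine (Finset.sum_eq_zero fun S _ => ?_).symm
        by_cases hS : run S.toList u = v <;> simp [hS, hv]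
    simp only [this]
    rw [Finset.sum_comm, ex]
    refine Finset.sum_congr rfl fun S hS => ?_
    rw [Finset.sum_ite_eq, if_pos (Finset.mem_image_of_mem _ hS)]
  · intro v hv
    by_contra hc
    apply hv
    have : pt u A t v = 0 := Finset.sum_eq_zero fun S hS => if_neg fun e' =>
      hc (Finset.mem_coe.2 (Finset.mem_image.2 ⟨S, hS, e'⟩))
    simp [this]

open Classical in
/-- the map to the circle -/
noncomputable def Phi (x : Config 8 15) : AddCircle (1 : ℝ) :=
  if 0 < mass (-1, 0) x.1 ∧ 0 < mass (0, -1) x.1 then (mass (0, -1) x.1 : ℝ) else 0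

lemma W_disj {w : List (ℤ × ℤ)} (h : W (-1, 0) w) (h' : W (0, -1) w) : False := by
  have := h.2.symm.trans h'.2
  simp at this

lemma Phi_of_all {u : List (ℤ × ℤ)} {A : Finset (ℕ ⊕ (ℤ × ℤ))}
    (hall : ∀ S ⊆ A, W (-1, 0) (run S.toList u) ∨ W (0, -1) (run S.toList u))
    {t : ℕ ⊕ (ℤ × ℤ) → ℝ} (ht : ∀ a, t a ∈ Set.Icc (0 : ℝ) 1) {x : Config 8 15}
    (hx : x.1 = pt u A t) : Phi x = (mass (0, -1) x.1 : ℝ) := by
  have h1 : mass (-1, 0) x.1 + mass (0, -1) x.1 = 1 := by
    rw [hx, mass_pt, mass_pt, ← ex_add]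
    refine (ex_congr A t fun S hS => ?_).trans (ex_const A t 1)
    rcases hall S hS with h | h
    · rw [if_pos h, if_neg (W_disj h)]; simp
    · rw [if_pos h, if_neg fun h' => W_disj h' h]; simp
  have h2 : 0 ≤ mass (-1, 0) x.1 := by
    rw [hx, mass_pt]; exact (ex_mem A ht _ fun S => by split_ifs <;> simp).1
  have h3 : 0 ≤ mass (0, -1) x.1 := by
    rw [hx, mass_pt]; exact (ex_mem A ht _ fun S => by split_ifs <;> simp).1
  unfold Phi
  split_ifs with hc
  · rfl
  · rcases h2.eq_or_lt with e | e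
    · have : mass (0, -1) x.1 = 1 := by linarith
      rw [this, AddCircle.coe_period]
    · have : mass (0, -1) x.1 = 0 := by
        by_contra hne
        exact hc ⟨e, lt_of_le_of_ne h3 (Ne.symm hne)⟩
      rw [this]; rfl

lemma Phi_of_none {u : List (ℤ × ℤ)} {A : Finset (ℕ ⊕ (ℤ × ℤ))}
    (hnone : (∀ S ⊆ A, ¬ W (-1, 0) (run S.toList u)) ∨ ∀ S ⊆ A, ¬ W (0, -1) (run S.toList u))
    {t : ℕ ⊕ (ℤ × ℤ) → ℝ} {x : Config 8 15} (hx : x.1 = pt u A t) : Phi x = 0 := by
  unfold Phi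
  rw [if_neg]
  rintro ⟨h1, h2⟩
  rcases hnone with h | h
  · rw [hx, mass_pt, ex_congr A t (g' := fun _ => 0) fun S hS => if_neg (h S hS), ex_const] at h1
    exact lt_irrefl _ h1
  · rw [hx, mass_pt, ex_congr A t (g' := fun _ => 0) fun S hS => if_neg (h S hS), ex_const] at h2
    exact lt_irrefl _ h2

lemma continuous_Phi : Continuous Phi := by
  have : ∀ x y : Config 8 15, dist (Phi x) (Phi y) ≤ 16 * dist x y := by
    refine lip_of_seg Phi (by norm_num) ?_
    rintro x y r ⟨u, A, t, t', h1, h2, h3, h4, h5, rfl⟩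
    by_cases hc : (∃ S ⊆ A, W (-1, 0) (run S.toList u)) ∧ ∃ S ⊆ A, W (0, -1) (run S.toList u)
    · obtain ⟨⟨S₁, h₁, w₁⟩, S₂, h₂, w₂⟩ := hc
      have hall := cube_key h1 h₁ h₂ w₁ w₂
      rw [Phi_of_all hall h2 h4, Phi_of_all hall h3 h5, dist_eq_norm, ← AddCircle.coe_sub]
      refine (QuotientAddGroup.norm_mk_le_norm).trans ?_
      rw [h4, h5, mass_pt, mass_pt, Real.norm_eq_abs]
      have := ex_seg_le h1 h2 h3 (fun S => if W (0, -1) (run S.toList u) then 1 else 0)
        fun S => by split_ifs <;> simp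
      norm_num at this ⊢
      exact this
    · have hnone : (∀ S ⊆ A, ¬ W (-1, 0) (run S.toList u)) ∨
          ∀ S ⊆ A, ¬ W (0, -1) (run S.toList u) := by
        by_contra hh
        push Not at hh
        exact hc hh
      rw [Phi_of_none hnone h4, Phi_of_none hnone h5, dist_self]
      positivity
  exact (LipschitzWith.of_dist_le_mul (K := 16) this).continuous

end Pool.Agent.MP_66e1b3_co
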