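import Pool.Agent.MP_66e1b3_co.Cocycle

/-!
The loop along which the map to the circle has degree one.
-/

set_option autoImplicit false

open Finset

namespace Pool.Agent.MP_66e1b3_co

/-- all moves of the list are legal when performed one after the other -/
def AllLegal (m n : ℕ) (P : List (ℤ × ℤ) → ℕ ⊕ (ℤ × ℤ) → Prop) :
    List (ℕ ⊕ (ℤ × ℤ)) → List (ℤ × ℤ) → Prop
  | [], _ => True
  | a :: l, w => (Legal m n w a ∧ P w a) ∧ AllLegal m n P l (act a w)

instance decAllLegal (m n : ℕ) (P : List (ℤ × ℤ) → ℕ ⊕ (ℤ × ℤ) → Prop)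
    [∀ w a, Decidable (P w a)] :
    ∀ (l : List (ℕ ⊕ (ℤ × ℤ))) (w : List (ℤ × ℤ)), Decidable (AllLegal m n P l w)
  | [], _ => isTrue trivial
  | a :: l, w => by
    unfold AllLegal
    have := decAllLegal m n P l (act a w)
    infer_instance

lemma reach_run {m n : ℕ} {P : List (ℤ × ℤ) → ℕ ⊕ (ℤ × ℤ) → Prop} :
    ∀ (l : List (ℕ ⊕ (ℤ × ℤ))) (w : List (ℤ × ℤ)), Reach m n w → AllLegal m n P l w →
      Reach m n (run l w)
  | [], _, h, _ => h
  | a :: l, w, h, h' => reach_run l (act a w) (Relation.ReflTransGen.tail h ⟨a, h'.1.1, rfl⟩) h'.2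

/-- the point with coordinate `s` on an edge -/
noncomputable def edgePt {m n : ℕ} {u : List (ℤ × ℤ)} (hu : Reach m n u) {a : ℕ ⊕ (ℤ × ℤ)}
    (ha : Legal m n u a) (s : ℝ) : Config m n :=
  ⟨pt u {a} (fun _ => (Set.projIcc (0 : ℝ) 1 zero_le_one s : ℝ)), u, {a}, _, isCube_single hu ha,
    fun _ => (Set.projIcc (0 : ℝ) 1 zero_le_one s).2, rfl⟩

lemma continuous_edgePt {m n : ℕ} {u : List (ℤ × ℤ)} (hu : Reach m n u) {a : ℕ ⊕ (ℤ × ℤ)}
    (ha : Legal m n u a) : Continuous (edgePt hu ha) := by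
  refine (LipschitzWith.of_dist_le_mul (K := 1) fun s s' => ?_).continuous
  have h1 : Seg (edgePt hu ha s) (edgePt hu ha s') _ :=
    ⟨u, {a}, _, _, isCube_single hu ha, fun _ => (Set.projIcc (0 : ℝ) 1 zero_le_one s).2,
      fun _ => (Set.projIcc (0 : ℝ) 1 zero_le_one s').2, rfl, rfl, rfl⟩
  refine (cdist_le h1.chain).trans ?_
  rw [Finset.sum_singleton, Real.sqrt_sq_eq_abs]
  simpa [Real.dist_eq] using Set.abs_projIcc_sub_projIcc (zero_le_one (α := ℝ)) (c := s) (d := s')

lemma edgePt_zero {m n : ℕ} {u : List (ℤ × ℤ)} (hu : Reach m n u) {a : ℕ ⊕ (ℤ × ℤ)}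
    (ha : Legal m n u a) : edgePt hu ha 0 = vert u hu := by
  apply Subtype.ext
  simp only [edgePt, vert, Set.projIcc_left]
  exact pt_zero _ _

lemma edgePt_one {m n : ℕ} {u : List (ℤ × ℤ)} (hu : Reach m n u) {a : ℕ ⊕ (ℤ × ℤ)}
    (ha : Legal m n u a) (h' : Reach m n (act a u)) : edgePt hu ha 1 = vert _ h' := by
  apply Subtype.ext
  simp only [edgePt, vert, Set.projIcc_right]
  exact pt_single_one _ _

/-- the move does not join the two marked sets of states -/
def Plain (w : List (ℤ × ℤ)) (a : ℕ ⊕ (ℤ × ℤ)) : Prop :=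
  (¬ W (-1, 0) w ∧ ¬ W (-1, 0) (act a w)) ∨ (¬ W (0, -1) w ∧ ¬ W (0, -1) (act a w))

instance (w : List (ℤ × ℤ)) (a : ℕ ⊕ (ℤ × ℤ)) : Decidable (Plain w a) := by
  unfold Plain; infer_instance

lemma subset_single {P : List (ℤ × ℤ) → Prop} {u : List (ℤ × ℤ)} {a : ℕ ⊕ (ℤ × ℤ)} (h1 : P u)
    (h2 : P (act a u)) : ∀ S ⊆ ({a} : Finset (ℕ ⊕ (ℤ × ℤ))), P (run S.toList u) := by
  intro S hS
  rcases Finset.subset_singleton_iff.1 hS with rfl | rfl
  · simpa [run] using h1
  · simpa [run] using h2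

lemma lift_plain {F : Config 8 15 → ℝ} (hF : Continuous F)
    (hl : ∀ x, (F x : AddCircle (1 : ℝ)) = Phi x) {u : List (ℤ × ℤ)} (hu : Reach 8 15 u)
    {a : ℕ ⊕ (ℤ × ℤ)} (ha : Legal 8 15 u a) (h' : Reach 8 15 (act a u)) (hp : Plain u a) :
    F (vert _ h') = F (vert u hu) := by
  have := incr_eq (f := fun s => F (edgePt hu ha s)) (g := fun _ => 0)
    (hF.comp (continuous_edgePt hu ha)).continuousOn continuousOn_const fun s _ => by
      rw [hl]
      refine Phi_of_none (u := u) (A := {a}) ?_ rfl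
      rcases hp with h | h
      · exact Or.inl (subset_single (P := fun w => ¬ W (-1, 0) w) h.1 h.2)
      · exact Or.inr (subset_single (P := fun w => ¬ W (0, -1) w) h.1 h.2)
  rw [edgePt_zero, edgePt_one hu ha h'] at this
  linarith

lemma lift_special {F : Config 8 15 → ℝ} (hF : Continuous F)
    (hl : ∀ x, (F x : AddCircle (1 : ℝ)) = Phi x) {u : List (ℤ × ℤ)} (hu : Reach 8 15 u)
    {a : ℕ ⊕ (ℤ × ℤ)} (ha : Legal 8 15 u a) (h' : Reach 8 15 (act a u))
    (h1 : W (-1, 0) u) (h2 : W (0, -1) (act a u)) :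
    F (vert _ h') = F (vert u hu) + 1 := by
  have := incr_eq (f := fun s => F (edgePt hu ha s)) (g := fun s => s)
    (hF.comp (continuous_edgePt hu ha)).continuousOn continuousOn_id fun s hs => by
      rw [hl, Phi_of_all (u := u) (A := {a}) (subset_single
        (P := fun w => W (-1, 0) w ∨ W (0, -1) w) (Or.inl h1) (Or.inr h2))
        (fun _ => (Set.projIcc (0 : ℝ) 1 zero_le_one s).2) rfl]
      congr 1
      simp only [edgePt]
      rw [mass_pt, ← Finset.insert_empty, ex_insert (by simp), ex_empty, ex_empty,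
        Set.projIcc_of_mem _ hs]
      have h3 : ¬ W (0, -1) u := W_disj h1
      simp [run, h2, h3]
  rw [edgePt_zero, edgePt_one hu ha h'] at this
  linarith

lemma lift_run {F : Config 8 15 → ℝ} (hF : Continuous F)
    (hl : ∀ x, (F x : AddCircle (1 : ℝ)) = Phi x) :
    ∀ (l : List (ℕ ⊕ (ℤ × ℤ))) (w : List (ℤ × ℤ)) (hw : Reach 8 15 w)
      (h : AllLegal 8 15 Plain l w), F (vert _ (reach_run l w hw h)) = F (vert w hw)
  | [], _, _, _ => rfl
  | a :: l, w, hw, h => by
    have h' : Reach 8 15 (act a w) := Relation.ReflTransGen.tail hw ⟨a, h.1.1, rfl⟩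
    exact (lift_run hF hl l (act a w) h' h.2).trans (lift_plain hF hl hw h.1.1 h' h.1.2)

/-- the base state of the loop -/
def base : List (ℤ × ℤ) :=
  [(0, 1), (1, 0), (0, -1), (1, 0), (1, 0), (1, 0), (1, 0), (0, 1), (0, 1), (0, 1),
    (-1, 0), (-1, 0), (-1, 0), (0, -1), (-1, 0)]

open Sum in
/-- moves leading from the horizontal state to the base state -/
def approach : List (ℕ ⊕ (ℤ × ℤ)) :=
  [inr (0, 1), inl 13, inl 12, inl 11, inl 10, inl 9, inl 8, inl 7, inl 6, inl 5, inl 4,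
    inl 3, inl 2, inl 1, inl 0, inr (0, -1), inl 13, inl 12, inl 11, inl 10, inl 9, inl 8,
    inl 7, inl 6, inl 5, inl 4, inl 3, inl 2, inr (0, 1), inl 13, inl 12, inl 11, inl 10,
    inl 9, inl 8, inl 7, inr (0, 1), inl 13, inl 12, inl 11, inl 10, inl 9, inl 8,
    inr (0, 1), inl 13, inl 12, inl 11, inl 10, inl 9, inr (0, 1), inl 13, inl 12, inl 11,
    inl 10, inr (0, 1), inl 13, inl 12, inl 11, inr (0, 1), inl 13, inl 12, inr (0, 1),
    inl 13, inr (0, 1), inr (-1, 0), inl 13, inl 12, inl 11, inl 10, inr (-1, 0), inl 13,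
    inl 12, inl 11, inr (-1, 0), inl 13, inl 12, inr (-1, 0), inl 13, inr (-1, 0),
    inr (0, -1), inl 13]

open Sum in
/-- the loop without its first move -/
def loopRest : List (ℕ ⊕ (ℤ × ℤ)) :=
  [inr (1, 0), inl 2, inl 3, inl 4, inl 0, inl 1, inl 2, inr (0, -1), inr (-1, 0),
    inl 2, inl 1, inl 0, inl 4, inl 3, inl 2]

lemma approach_legal : AllLegal 8 15 (fun _ _ => True) approach (List.replicate 15 (1, 0)) := by
  decide +kernel

lemma approach_run : run approach (List.replicate 15 (1, 0)) = base := by decide +kernel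

lemma reach_base : Reach 8 15 base :=
  approach_run ▸ reach_run approach _ Relation.ReflTransGen.refl approach_legal

lemma first_legal : Legal 8 15 base (Sum.inr (0, -1)) := by decide +kernel

lemma rest_legal : AllLegal 8 15 Plain loopRest (act (Sum.inr (0, -1)) base) := by
  decide +kernel

lemma rest_run : run loopRest (act (Sum.inr (0, -1)) base) = base := by decide +kernel

theorem not_cat0 : ¬ IsCAT0 (Config 8 15) := by
  intro h
  obtain ⟨F, hF, hl⟩ := h.exists_lift (vert base reach_base) Phi continuous_Phi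
  have h' : Reach 8 15 (act (Sum.inr (0, -1)) base) :=
    Relation.ReflTransGen.tail reach_base ⟨_, first_legal, rfl⟩
  have e1 := lift_special hF hl reach_base first_legal h' (by decide +kernel) (by decide +kernel)
  have e2 := lift_run hF hl loopRest _ h' rest_legal
  have e3 : vert _ (reach_run loopRest _ h' rest_legal) = vert base reach_base := by
    apply Subtype.ext
    simp only [vert, rest_run]
  rw [e3] at e2
  linarith

end Pool.Agent.MP_66e1b3_co
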